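import Mathlib

namespace Pool.Agent.H.MP_82263f_pr.A

open Function

def E : Finset (Sym2 (Fin 5)) := {s(0, 1), s(1, 2), s(0, 3), s(0, 4)}

def G0 : SimpleGraph (Fin 5) := SimpleGraph.fromEdgeSet E

def enc (σ : Fin 5 → Fin 3) : ℕ := σ 0 + 3 * σ 1 + 9 * σ 2 + 27 * σ 3 + 81 * σ 4

def dg (s i : ℕ) : ℕ := s / 3 ^ i % 3
def eqn (a b : ℕ) : ℕ := cond (Nat.beq a b) 1 0
def hn (s : ℕ) : ℕ :=
  eqn (dg s 0) (dg s 1) + eqn (dg s 1) (dg s 2) + eqn (dg s 0) (dg s 3) + eqn (dg s 0) (dg s 4)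
def wn (s : ℕ) : ℕ := 30 ^ hn s
def sd (s v c : ℕ) : ℕ := s - dg s v * 3 ^ v + c * 3 ^ v
def zn (s v : ℕ) : ℕ := wn (sd s v 0) + wn (sd s v 1) + wn (sd s v 2)
def D : ℕ := 32 * 902 * 61 * 27002 * 931 * 90
def gt (X s : ℕ) : ℕ := X / 2 ^ (600 * s) % 2 ^ 600
def m3 (X s v : ℕ) : ℕ := gt X (sd s v 0) + gt X (sd s v 1) + gt X (sd s v 2)
def pack (v X : ℕ) : ℕ :=
  (List.range 243).foldr (fun s a => a * 2 ^ 600 + m3 X s v * wn s * D / zn s v) 0
def chk (v X Y : ℕ) : Bool :=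
  (List.range 243).all fun s => Nat.beq (gt Y s * zn s v) (m3 X s v * wn s * D)
def force (n : ℕ) (f : ℕ → Bool) : Bool := Nat.rec (f 0) (fun k _ => f (Nat.succ k)) n
def run : List ℕ → ℕ → (ℕ → Bool) → Bool
  | [], X, k => k X
  | v :: l, X, k => force (pack v X) fun Y => chk v X Y && run l Y k
def Zn : ℕ := ((List.range 243).map wn).sum
def ps (X S : ℕ) : ℕ := ((List.range 243).map fun s => gt X s * Zn - wn s * S).sum
def ng (X S : ℕ) : ℕ := ((List.range 243).map fun s => wn s * S - gt X s * Zn).sum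

theorem force_eq (n : ℕ) (f : ℕ → Bool) : force n f = f n := by cases n <;> rfl

theorem main : run (([3, 4, 0, 3, 1, 0, 1, 3, 0, 1] : List (Fin 5)).map Fin.val) 1
    (fun X => run (([3, 4, 0, 3, 1, 0, 3, 0, 1] : List (Fin 5)).map Fin.val) 1 fun Y => Nat.blt (ps Y (D ^ 9) * D) (ps X (D ^ 10)) &&
      Nat.blt (ng Y (D ^ 9) * D) (ps X (D ^ 10))) = true := by decide +kernel

theorem enc_lt (σ : Fin 5 → Fin 3) : enc σ < 243 := by
  have := (σ 0).2; have := (σ 1).2; have := (σ 2).2; have := (σ 3).2; have := (σ 4).2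
  unfold enc; omega
theorem enc_up (σ : Fin 5 → Fin 3) (v : Fin 5) (c : Fin 3) :
    enc (update σ v c) = sd (enc σ) v c := by
  have := (σ 0).2; have := (σ 1).2; have := (σ 2).2; have := (σ 3).2; have := (σ 4).2
  fin_cases v <;> simp [enc, sd, dg] <;> omega
theorem enc_h : ∀ σ : Fin 5 → Fin 3,
    (E.filter fun e => (e.map σ).IsDiag).card = hn (enc σ) := by decide +kernel
theorem enc_0 : ∀ σ : Fin 5 → Fin 3, gt 1 (enc σ) = if σ = 0 then 1 else 0 := by decide +kernel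

theorem sum_enc (f : ℕ → ℝ) : ∑ σ : Fin 5 → Fin 3, f (enc σ) = ((List.range 243).map f).sum := by
  have h : ∀ σ : Fin 5 → Fin 3, enc σ = (finFunctionFinEquiv σ : ℕ) := by
    intro σ
    rw [finFunctionFinEquiv_apply]
    simp [Fin.sum_univ_succ, enc]
    ring
  simp only [h]
  rw [Equiv.sum_comp finFunctionFinEquiv (fun i => f i), Fin.sum_univ_eq_sum_range,
    Finset.sum_list_map_count]
  rw [List.toFinset_range]
  apply Finset.sum_congr rfl
  intro i hi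
  rw [List.count_eq_one_of_mem List.nodup_range (by simpa using hi), one_smul]

theorem sum_nat (f : ℕ → ℕ) :
    ((((List.range 243).map f).sum : ℕ) : ℝ) = ∑ σ : Fin 5 → Fin 3, (f (enc σ) : ℝ) := by
  rw [sum_enc (fun s => (f s : ℝ)), Nat.cast_list_sum, List.map_map]
  rfl

theorem Zn_eq : (Zn : ℝ) = ∑ σ : Fin 5 → Fin 3, (wn (enc σ) : ℝ) := sum_nat wn

theorem ps_eq (X S : ℕ) : (ps X S : ℝ) =
    ∑ σ : Fin 5 → Fin 3, ((gt X (enc σ) * Zn - wn (enc σ) * S : ℕ) : ℝ) :=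
  sum_nat fun s => gt X s * Zn - wn s * S

theorem ng_eq (X S : ℕ) : (ng X S : ℝ) =
    ∑ σ : Fin 5 → Fin 3, ((wn (enc σ) * S - gt X (enc σ) * Zn : ℕ) : ℝ) :=
  sum_nat fun s => wn s * S - gt X s * Zn

theorem Zpos : (0 : ℝ) < Zn := by
  have : 0 < Zn := by decide +kernel
  exact_mod_cast this

theorem d0 : 0 < D := by decide +kernel

theorem conn : G0.Connected := by
  unfold G0
  decide +kernel

end Pool.Agent.H.MP_82263f_pr.A
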